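import Mathlib
import Pool.Agent.H14.Kreiss

set_option autoImplicit false

namespace Pool.Agent.Results.MP_389529_an.Linear

open Pool.Agent.H14.Kreiss in
theorem result :
    (∀ d : ℕ, 1 ≤ d → ∃ T : (Fin d → ℂ) →L[ℂ] (Fin d → ℂ),
      spectrum ℂ T ⊆ Metric.closedBall 0 1 ∧
      (∀ k : ℕ, 1 ≤ k → ∀ z : ℂ, 1 < ‖z‖ → ‖resolvent T z ^ k‖ ≤ 17 / (‖z‖ - 1) ^ k) ∧
      ∃ n : ℕ, 1 ≤ n ∧ (d : ℝ) ≤ ‖T ^ n‖) ∧
    ∀ θ : ℝ,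
      (∀ M : ℝ, 1 ≤ M → ∃ C : ℝ, ∀ d : ℕ, 1 ≤ d →
        ∀ (X : Type) [NormedAddCommGroup X] [NormedSpace ℂ X] [CompleteSpace X],
          Module.finrank ℂ X = d → ∀ T : X →L[ℂ] X,
            spectrum ℂ T ⊆ Metric.closedBall 0 1 →
            (∀ k : ℕ, 1 ≤ k → ∀ z : ℂ, 1 < ‖z‖ → ‖resolvent T z ^ k‖ ≤ M / (‖z‖ - 1) ^ k) →
            ∀ n : ℕ, 1 ≤ n → ‖T ^ n‖ ≤ C * (d : ℝ) ^ θ) →
      1 ≤ θ := by
  refine ⟨fun d hd => ⟨T d, spec_T, fun k hk z hz => res_T z hz k hk, 2 * 3 ^ m d,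
    Nat.succ_le_of_lt (by positivity), pow_T hd⟩, fun θ h => ?_⟩
  by_contra hθ
  obtain ⟨C, hC⟩ := h 17 (by norm_num)
  have h1 : Filter.Tendsto (fun d : ℕ => (d : ℝ) ^ (1 - θ)) Filter.atTop Filter.atTop :=
    (tendsto_rpow_atTop (by linarith)).comp tendsto_natCast_atTop_atTop
  obtain ⟨d, hd1, hd2⟩ := ((h1.eventually_gt_atTop C).and (Filter.eventually_ge_atTop 1)).exists
  have h2 := (pow_T hd2).trans (hC d hd2 (Fin d → ℂ) (by simp) (T d) spec_T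
    (fun k hk z hz => res_T z hz k hk) _ (Nat.succ_le_of_lt (by positivity)))
  have hd : (0 : ℝ) < d := by exact_mod_cast hd2
  have h3 : (d : ℝ) ^ (1 - θ) * (d : ℝ) ^ θ = d := by rw [← Real.rpow_add hd]; simp
  nlinarith [Real.rpow_pos_of_pos hd θ]

end Pool.Agent.Results.MP_389529_an.Linear
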